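import Pool.Agent.Lib.MP_72f242_pr.CS_Main

set_option autoImplicit false
open MeasureTheory

/-- Central limit theorem for the shortest closed tour through `n` independent uniform points of
the unit square, centred at its mean and with a scaling that does not depend on `n`. -/
theorem Pool.Agent.Results.MP_72f242_pr.CLTConstant.result :
    ∃ s : ℝ, 0 < s ∧ ∀ t : ℝ,
      Filter.Tendsto (fun n : ℕ =>
        (Measure.pi (fun _ : Fin n =>
            (volume : Measure (Fin 2 → ℝ)).restrict (Set.Icc (0 : Fin 2 → ℝ) 1))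
          {x : Fin n → Fin 2 → ℝ |
            ((⨅ σ : Equiv.Perm (Fin n), ∑ i : Fin n,
                Real.sqrt ((x (σ i) 0 - x (σ (finRotate n i)) 0) ^ 2
                  + (x (σ i) 1 - x (σ (finRotate n i)) 1) ^ 2)) -
              ∫ y : Fin n → Fin 2 → ℝ, (⨅ σ : Equiv.Perm (Fin n), ∑ i : Fin n,
                Real.sqrt ((y (σ i) 0 - y (σ (finRotate n i)) 0) ^ 2
                  + (y (σ i) 1 - y (σ (finRotate n i)) 1) ^ 2))
                ∂(Measure.pi (fun _ : Fin n =>
                  (volume : Measure (Fin 2 → ℝ)).restrict (Set.Icc (0 : Fin 2 → ℝ) 1)))) / s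
              ≤ t}).toReal)
        Filter.atTop
        (nhds ((ProbabilityTheory.gaussianReal 0 1 (Set.Iic t)).toReal)) := by
  obtain ⟨s, h0, -, h⟩ := Pool.Agent.TSP72.tsp_clt_const
  exact ⟨s, h0, h⟩
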